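import Pool.Agent.W669.HD.Stm2

/-!
# K4: mixed discriminants of a curvature tensor in four dimensions
-/

set_option autoImplicit false

namespace Pool.Agent.W155.HD.K4

open Finset Pool.Agent.W666.GB Pool.Agent.W669.HD Pool.Agent.W976.HD

theorem sp_eps (x : Fin 4 → Fin 4 → ℝ) (hx : ∀ i j, x j i = - x i j) (c d : Fin 4) :
    sp x (eps c d) = x c d := by
  have h0 : ∀ i, x i i = 0 := fun i => by linarith [hx i i]
  have h01 := hx 0 1
  have h02 := hx 0 2
  have h03 := hx 0 3
  have h12 := hx 1 2
  have h13 := hx 1 3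
  have h23 := hx 2 3
  have g0 := h0 0
  have g1 := h0 1
  have g2 := h0 2
  have g3 := h0 3
  rw [sp, eps_cast, eps_cast, eps_cast, eps_cast, eps_cast, eps_cast]
  have z : ∀ c d : Fin 4, (epsZ c d 2 3, epsZ c d 1 3, epsZ c d 1 2, epsZ c d 0 3, epsZ c d 0 2,
      epsZ c d 0 1) =
      (if (c, d) = (0, 1) then 1 else if (c, d) = (1, 0) then -1 else 0,
       if (c, d) = (2, 0) then 1 else if (c, d) = (0, 2) then -1 else 0,
       if (c, d) = (0, 3) then 1 else if (c, d) = (3, 0) then -1 else 0,
       if (c, d) = (1, 2) then 1 else if (c, d) = (2, 1) then -1 else 0,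
       if (c, d) = (3, 1) then 1 else if (c, d) = (1, 3) then -1 else 0,
       if (c, d) = (2, 3) then 1 else if (c, d) = (3, 2) then -1 else 0) := by
    decide +kernel
  have zz := z c d
  simp only [Prod.mk.injEq] at zz
  obtain ⟨z1, z2, z3, z4, z5, z6⟩ := zz
  rw [z1, z2, z3, z4, z5, z6]
  fin_cases c <;> fin_cases d <;> simp <;> linarith

theorem sp_comm' (x y : Fin 4 → Fin 4 → ℝ) : sp x y = sp y x := by
  rw [sp, sp]; ring

theorem kap_sp (K : Q4) (h : ∀ i j k l, K i j l k = - K i j k l) :
    kap K = ∑ π : Equiv.Perm (Fin 4), sn π * (4 * sp (K (π 0) (π 1)) (K (π 2) (π 3))) := by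
  rw [kap]
  refine Finset.sum_congr rfl fun π _ => ?_
  rw [← sum4_anti (K (π 0) (π 1)) (K (π 2) (π 3)) (fun i j => h _ _ _ _) (fun i j => h _ _ _ _),
    Finset.mul_sum]
  refine Finset.sum_congr rfl fun π' _ => ?_
  ring

theorem eps_anti (t : ℝ) (i j k l : Fin 4) : t * eps i j l k = -(t * eps i j k l) := by
  rw [eps_cast, eps_cast, epsZ_anti]
  push_cast
  ring

theorem k4 : S_K4 := by
  intro P K t n μ hP hK hμ hKμ
  have p34 : ∀ i j k l, P i j l k = - P i j k l := fun i j k l => by
    rw [← hP.pair i j l k, hP.a12, hP.pair]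
  have hbetP : bet P = 0 := by
    rw [bet_formula hP.a12 hP.pair]
    have := hP.bia 0 1 2 3
    linarith
  have hKf : K = fun i j k l => ∑ a, μ a i j * μ a k l := by
    funext i j k l
    exact hKμ i j k l
  have k34 : ∀ i j k l, K i j l k = - K i j k l := by
    intro i j k l
    rw [hK, hK, p34, eps_anti]
    ring
  have hbet : bet K = bet (fun i j k l => t * eps i j k l) := by
    have : bet K = bet P + bet (fun i j k l => t * eps i j k l) := by
      simp only [bet]
      rw [← Finset.sum_add_distrib]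
      refine Finset.sum_congr rfl fun π _ => ?_
      rw [hK]
      ring
    rw [this, hbetP, zero_add]
  have hkap : kap K = kap P + kap (fun i j k l => t * eps i j k l) := by
    rw [kap_sp K k34, kap_sp P p34, kap_sp (fun i j k l => t * eps i j k l) (eps_anti t)]
    have h1 : ∀ a b c d : Fin 4, sp (K a b) (K c d) = sp (P a b) (P c d) + 2 * t * P a b c d +
        sp (fun k l => t * eps a b k l) (fun k l => t * eps c d k l) := by
      intro a b c d
      have e1 := sp_eps (P a b) (fun i j => p34 _ _ _ _) c d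
      have e2 := sp_eps (P c d) (fun i j => p34 _ _ _ _) a b
      have e3 := hP.pair a b c d
      have e4 : sp (K a b) (K c d) = sp (P a b) (P c d) + t * sp (P a b) (eps c d) +
          t * sp (P c d) (eps a b) +
          sp (fun k l => t * eps a b k l) (fun k l => t * eps c d k l) := by
        simp only [sp, hK]
        ring
      rw [e4, e1, e2, e3]
      ring
    have h2 : ∑ π : Equiv.Perm (Fin 4), sn π * (4 * sp (K (π 0) (π 1)) (K (π 2) (π 3))) =
        ∑ π : Equiv.Perm (Fin 4), (sn π * (4 * sp (P (π 0) (π 1)) (P (π 2) (π 3))) +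
          sn π * (4 * sp (fun k l => t * eps (π 0) (π 1) k l)
            (fun k l => t * eps (π 2) (π 3) k l)) +
          8 * t * (sn π * P (π 0) (π 1) (π 2) (π 3))) := by
      refine Finset.sum_congr rfl fun π _ => ?_
      rw [h1]
      ring
    rw [h2, Finset.sum_add_distrib, Finset.sum_add_distrib, ← Finset.mul_sum]
    have h3 : ∑ π : Equiv.Perm (Fin 4), sn π * P (π 0) (π 1) (π 2) (π 3) = 0 := hbetP
    rw [h3, mul_zero, add_zero]
  have d1 := d4.1 n μ hμ
  rw [← hKf] at d1
  have d2 := d4.2 t
  rw [hbet] at d1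
  refine ⟨by linarith, by linarith, ?_⟩
  nlinarith [sq_nonneg (bet (fun i j k l => t * eps i j k l))]

end Pool.Agent.W155.HD.K4

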